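import Pool.Agent.Run7.h745.AH.Iface

/-!
# Weights of the types
-/

set_option autoImplicit false

noncomputable section

namespace Run7.h930.AH

open Filter Topology Matrix Pool.Agent.H188R3 Pool.Agent.TH249 Run7.h745 Run7.h745.AH
open scoped ENNReal NNReal

/-- nonnegative real -/
def Nn (z : ℂ) : Prop := 0 ≤ z.re ∧ z.im = 0

lemma Nn.zero : Nn 0 := ⟨le_rfl, rfl⟩
lemma Nn.one : Nn 1 := ⟨by simp, by simp⟩
lemma Nn.add {z w : ℂ} (hz : Nn z) (hw : Nn w) : Nn (z + w) :=
  ⟨by rw [Complex.add_re]; exact add_nonneg hz.1 hw.1, by rw [Complex.add_im, hz.2, hw.2, add_zero]⟩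
lemma Nn.sum {ι : Type} (S : Finset ι) (g : ι → ℂ) (h : ∀ i ∈ S, Nn (g i)) :
    Nn (∑ i ∈ S, g i) :=
  ⟨by rw [Complex.re_sum]; exact Finset.sum_nonneg fun i hi => (h i hi).1,
   by rw [Complex.im_sum]; exact Finset.sum_eq_zero fun i hi => (h i hi).2⟩
lemma Nn.mulr {z : ℂ} (hz : Nn z) {r : ℝ} (hr : 0 ≤ r) : Nn ((r : ℂ) * z) :=
  ⟨by rw [Complex.re_ofReal_mul]; exact mul_nonneg hr hz.1,
   by rw [Complex.im_ofReal_mul, hz.2, mul_zero]⟩

/-- the number `q n + 4 (n + 1)^3` -/
def Qn (n : ℕ) : ℝ := (q n : ℝ) + 4 * ((n : ℝ) + 1) ^ 3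

lemma Qn_pos (n : ℕ) : 0 < Qn n := by
  unfold Qn
  have : (0 : ℝ) < q n := by exact_mod_cast q_pos n
  positivity

lemma Qn_cast (n : ℕ) : ((q n : ℂ) + 4 * ((n : ℂ) + 1) ^ 3) = ((Qn n : ℝ) : ℂ) := by
  unfold Qn
  push_cast
  ring

lemma ntr_one {I : Type} [Fintype I] [DecidableEq I] [Nonempty I] : ntr (1 : MA I ℂ) = 1 := by
  unfold ntr
  have h : ∀ i : I, (1 : MA I ℂ).en i i = 1 := fun i => by rw [MA.en_one]; simp
  rw [Finset.sum_congr rfl fun i _ => h i, Finset.sum_const, Finset.card_univ, nsmul_eq_mul,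
    mul_one]
  exact div_self (by exact_mod_cast Fintype.card_ne_zero)

lemma ntr_zero {I : Type} [Fintype I] [DecidableEq I] : ntr (0 : MA I ℂ) = 0 := by
  unfold ntr
  have h : ∀ i : I, (0 : MA I ℂ).en i i = 0 := fun i => rfl
  rw [Finset.sum_congr rfl fun i _ => h i, Finset.sum_const_zero, zero_div]

lemma ntr_add {I : Type} [Fintype I] [DecidableEq I] (x y : MA I ℂ) :
    ntr (x + y) = ntr x + ntr y := by
  unfold ntr
  have h : ∀ i : I, (x + y).en i i = x.en i i + y.en i i := fun i => rfl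
  rw [Finset.sum_congr rfl fun i _ => h i, Finset.sum_add_distrib, add_div]

lemma ntr_smul {I : Type} [Fintype I] [DecidableEq I] (c : ℂ) (x : MA I ℂ) :
    ntr (c • x) = c * ntr x := by
  unfold ntr
  have h : ∀ i : I, (c • x).en i i = c * x.en i i := fun i => rfl
  rw [Finset.sum_congr rfl fun i _ => h i, ← Finset.mul_sum, mul_div_assoc]

variable {s : ℕ → Bool}

lemma nt_add {n : ℕ} (a b : A s n) (t : Fin (n + 1)) (y : X n t) :
    nt (a + b) t y = nt a t y + nt b t y := ntr_add _ _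

lemma nt_smul {n : ℕ} (c : ℂ) (a : A s n) (t : Fin (n + 1)) (y : X n t) :
    nt (c • a) t y = c * nt a t y := ntr_smul _ _

lemma nt_eC_self {n : ℕ} (t : Fin (n + 1)) (y : X n t) : nt (eC s t) t y = 1 := by
  unfold nt eC
  rw [Pi.single_eq_same]
  exact ntr_one

lemma nt_eC_ne {n : ℕ} {t t' : Fin (n + 1)} (h : t' ≠ t) (y : X n t') :
    nt (eC s t) t' y = 0 := by
  unfold nt eC
  rw [Pi.single_eq_of_ne h]
  exact ntr_zero

lemma nt_one {n : ℕ} (t : Fin (n + 1)) (y : X n t) : nt (1 : A s n) t y = 1 := ntr_one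

lemma nn_eC {n : ℕ} (t t' : Fin (n + 1)) (y : X n t') : Nn (nt (eC s t) t' y) := by
  by_cases h : t' = t
  · subst h
    rw [nt_eC_self]; exact Nn.one
  · rw [nt_eC_ne h]; exact Nn.zero

/-- one step -/
lemma nn_step (hT : S_TRF) {n : ℕ} (a : A s n) (ha : ∀ t y, Nn (nt a t y)) (t' : Fin (n + 2))
    (y : X (n + 1) t') : Nn (nt (φ s n a) t' y) := by
  have h := hT s n a t' y
  have hR : Nn ((if h : (t' : ℕ) ≤ n then ∑ i : Fin (q n), nt a (ft h) (blk n t' i y)
        else (q n : ℂ) * nt a 0 (x0 n 0)) + 4 * ∑ c : Cn n, nt a c.2.2 (pt n c)) := by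
    refine Nn.add ?_ ?_
    · split_ifs with h1
      · exact Nn.sum _ _ fun i _ => ha _ _
      · have := (ha 0 (x0 n 0)).mulr (Nat.cast_nonneg (α := ℝ) (q n))
        simpa using this
    · have := (Nn.sum Finset.univ (fun c : Cn n => nt a c.2.2 (pt n c))
        fun c _ => ha _ _).mulr (r := 4) (by norm_num)
      simpa using this
  rw [← h, Qn_cast] at hR
  have e : nt (φ s n a) t' y = (((Qn n)⁻¹ : ℝ) : ℂ) * (nt (φ s n a) t' y * ((Qn n : ℝ) : ℂ)) := by
    have : ((Qn n : ℝ) : ℂ) ≠ 0 := by exact_mod_cast (Qn_pos n).ne'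
    push_cast
    field_simp
  rw [e]
  exact hR.mulr (inv_nonneg.2 (Qn_pos n).le)

lemma nn_trans (hT : S_TRF) {m n : ℕ} (hmn : m ≤ n) (a : A s m) (ha : ∀ t y, Nn (nt a t y)) :
    ∀ t y, Nn (nt (trans (φ s) m n a) t y) := by
  induction n, hmn using Nat.le_induction with
  | base => rw [trans_self]; exact ha
  | succ n hn ih =>
    rw [trans_succ (φ s) hn]
    exact nn_step hT _ ih

/-- lower bound for one step at a fixed type -/
lemma low_step (hT : S_TRF) {n : ℕ} (a : A s n) (ha : ∀ t y, Nn (nt a t y)) {t : ℕ} (ht : t ≤ n)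
    (y : X (n + 1) (ft (ht.trans (Nat.le_succ n)))) (r : ℝ)
    (hr : ∀ i, r ≤ (nt a (ft ht) (blk n t i y)).re) :
    (q n : ℝ) * r ≤ (nt (φ s n a) (ft (ht.trans (Nat.le_succ n))) y).re * Qn n := by
  have h := hT s n a (ft (ht.trans (Nat.le_succ n))) y
  rw [Qn_cast] at h
  have h2 := congrArg Complex.re h
  rw [mul_comm, Complex.re_ofReal_mul, Complex.add_re] at h2
  have h3 : 0 ≤ (4 * ∑ c : Cn n, nt a c.2.2 (pt n c)).re := by
    have := (Nn.sum Finset.univ (fun c : Cn n => nt a c.2.2 (pt n c))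
        fun c _ => ha _ _).mulr (r := 4) (by norm_num)
    have h4 := this.1
    simpa using h4
  have h6 : ((ft (ht.trans (Nat.le_succ n)) : Fin (n + 2)) : ℕ) ≤ n := ht
  rw [dif_pos h6, Complex.re_sum] at h2
  have h5 : (q n : ℝ) * r ≤ ∑ i : Fin (q n), (nt a (ft h6) (blk n _ i y)).re := by
    calc (q n : ℝ) * r = ∑ _i : Fin (q n), r := by
          rw [Finset.sum_const, Finset.card_univ, Fintype.card_fin, nsmul_eq_mul]
      _ ≤ _ := Finset.sum_le_sum fun i _ => hr i
  rw [mul_comm ((nt (φ s n a) (ft (ht.trans (Nat.le_succ n))) y).re), h2]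
  exact le_add_of_le_of_nonneg h5 h3

lemma tau_smul {L : Type} [CStarAlgebra L] (τ : TracialState L) (r : ℝ) (x : L) :
    (τ.val (((r : ℝ) : ℂ) • x)).re = r * (τ.val x).re := by
  rw [map_smul, smul_eq_mul, Complex.re_ofReal_mul]

theorem t_WTM : S_WTM := by
  intro hN hT hM s L _ j hj τ t n m hn hm hnm
  induction m, hnm using Nat.le_induction with
  | base => exact le_rfl
  | succ m hnm ih =>
    have hm' : t ≤ m := hn.trans hnm
    refine le_trans ?_ (ih hm')
    have hdm := (hN.1 m).1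
    have hdpos : 0 < d m := by linarith
    have key := hM s L j hj τ (m + 1) (((d (m + 1) / d m : ℝ) : ℂ) • eC s (ft hm))
      (φ s m (eC s (ft hm'))) (by
        intro t' y
        rw [nt_smul]
        by_cases h : t' = ft hm
        · subst h
          rw [nt_eC_self, mul_one, Complex.ofReal_re]
          have h1 := low_step hT (eC s (ft hm')) (fun t y => nn_eC _ _ _) hm' y 1 (fun i => by
            rw [nt_eC_self, Complex.one_re])
          have h2 := hN.2.1 m
          have h3 : d (m + 1) * Qn m = q m * d m := h2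
          rw [div_le_iff₀ hdpos]
          have h4 : d (m + 1) * Qn m ≤ (nt (φ s m (eC s (ft hm')))
              (ft (hm'.trans (Nat.le_succ m))) y).re * d m * Qn m := by
            rw [h3]
            nlinarith
          exact le_of_mul_le_mul_right h4 (Qn_pos m)
        · rw [nt_eC_ne h, mul_zero]
          exact (nn_step hT _ (fun t y => nn_eC _ _ _) t' y).1)
    rw [hj.comp, map_smul, tau_smul] at key
    have h5 : d (m + 1) / d m * (τ.val (j (m + 1) (eC s (ft hm)))).re * d m =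
        d (m + 1) * (τ.val (j (m + 1) (eC s (ft hm)))).re := by
      field_simp
    rw [← h5, mul_comm (d m)]
    exact mul_le_mul_of_nonneg_right key hdpos.le

/-- lower bound for the weight of the type `t` at the base point -/
lemma low_trans (hN : S_NUM) (hT : S_TRF) {t m n : ℕ} (hm : t ≤ m) (hmn : m ≤ n)
    (hn : t ≤ n) :
    d n ≤ d m * (nt (trans (φ s) m n (eC s (ft hm))) (ft hn) (x0 n t)).re := by
  induction n, hmn using Nat.le_induction with
  | base =>
    rw [trans_self]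
    have : nt (eC s (ft hm)) (ft hn) (x0 m t) = 1 := nt_eC_self (s := s) (ft hm) _
    rw [this, Complex.one_re, mul_one]
  | succ n hmn ih =>
    have hn' : t ≤ n := hm.trans hmn
    have ih := ih hn'
    rw [trans_succ (φ s) hmn]
    set b := trans (φ s) m n (eC s (ft hm)) with hb
    have hbn : ∀ t y, Nn (nt b t y) := nn_trans hT hmn _ (fun t y => nn_eC _ _ _)
    have h1 := low_step hT b hbn hn' (x0 (n + 1) t) (nt b (ft hn') (x0 n t)).re (fun i => le_rfl)
    have h2 : d (n + 1) * Qn n = q n * d n := hN.2.1 n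
    have hdm := (hN.1 m).1
    have h3 : d (n + 1) * Qn n ≤ d m * (nt (φ s n b) (ft hn) (x0 (n + 1) t)).re * Qn n := by
      rw [h2]
      calc (q n : ℝ) * d n ≤ q n * (d m * (nt b (ft hn') (x0 n t)).re) :=
            mul_le_mul_of_nonneg_left ih (Nat.cast_nonneg _)
        _ = d m * (q n * (nt b (ft hn') (x0 n t)).re) := by ring
        _ ≤ d m * ((nt (φ s n b) (ft hn) (x0 (n + 1) t)).re * Qn n) :=
            mul_le_mul_of_nonneg_left h1 (by linarith)
        _ = _ := by ring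
    exact le_of_mul_le_mul_right h3 (Qn_pos n)

lemma eC_add_le {n : ℕ} (t t' : Fin (n + 1)) (h : t' ≠ t) (u : Fin (n + 1)) (y : X n u) :
    Nn (nt (1 - eC s t - eC s t') u y) := by
  have e : nt (1 - eC s t - eC s t') u y = 1 - nt (eC s t) u y - nt (eC s t') u y := by
    have h1 : (1 - eC s t - eC s t' : A s n) = 1 + (-1 : ℂ) • eC s t + (-1 : ℂ) • eC s t' := by
      simp only [neg_smul, one_smul, sub_eq_add_neg]
    rw [h1, nt_add, nt_add, nt_smul, nt_smul, nt_one]
    ring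
  rw [e]
  by_cases h1 : u = t
  · subst h1
    rw [nt_eC_self, nt_eC_ne h.symm]
    simpa using Nn.zero
  · by_cases h2 : u = t'
    · subst h2
      rw [nt_eC_self, nt_eC_ne h]
      simpa using Nn.zero
    · rw [nt_eC_ne h1, nt_eC_ne h2]
      simpa using Nn.one

theorem t_WTE : S_WTE := by
  intro hN hT hAV s L _ j hj t
  have hni : Tendsto (fun i : ℕ => i + t) (hyperfilter ℕ : Filter ℕ) atTop :=
    (tendsto_add_atTop_nat t).mono_left Nat.hyperfilter_le_atTop
  obtain ⟨τ, hτ⟩ := hAV s L j hj (hyperfilter ℕ) (fun i => i + t)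
    (fun i => ft (Nat.le_add_left t i)) (fun i => x0 (i + t) t) hni
  have hev : ∀ m : ℕ, ∀ᶠ i in (hyperfilter ℕ : Filter ℕ), m ≤ i + t := fun m =>
    hni.eventually (eventually_ge_atTop m)
  have hre : ∀ (m : ℕ) (a : A s m), Tendsto (fun i => (nt (trans (φ s) m (i + t) a)
      (ft (Nat.le_add_left t i)) (x0 (i + t) t)).re) (hyperfilter ℕ) (𝓝 (τ.val (j m a)).re) :=
    fun m a => (Complex.continuous_re.tendsto _).comp (hτ m a)
  -- lower bound
  have hlow : ∀ m (hm : t ≤ m), 1 - (1 / 2 : ℝ) ^ (m + 2) ≤ (τ.val (j m (eC s (ft hm)))).re := by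
    intro m hm
    refine ge_of_tendsto (hre m _) ?_
    filter_upwards [hev m] with i hi
    have h1 := low_trans (s := s) hN hT hm hi (Nat.le_add_left t i)
    have h2 := (hN.2.2 m (i + t) hi).2
    have hdm := (hN.1 m).1
    have hdpos : 0 < d m := by linarith
    have h3 : d (i + t) / d m ≤ (nt (trans (φ s) m (i + t) (eC s (ft hm)))
      (ft (Nat.le_add_left t i)) (x0 (i + t) t)).re := by
      rw [div_le_iff₀ hdpos, mul_comm]; exact h1
    linarith
  refine ⟨τ, ?_, ?_⟩
  · intro n hn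
    have h1 := hlow n hn
    have h2 : (1 / 2 : ℝ) ^ (n + 2) ≤ 1 / 2 := by
      calc (1 / 2 : ℝ) ^ (n + 2) ≤ (1 / 2) ^ 1 :=
            pow_le_pow_of_le_one (by norm_num) (by norm_num) (by omega)
        _ = 1 / 2 := by norm_num
    linarith
  · intro t' htt' ε hε
    obtain ⟨n₂, hn₂⟩ := exists_pow_lt_of_lt_one hε (by norm_num : (1 / 2 : ℝ) < 1)
    refine ⟨max n₂ t, fun n hn hn1 => ?_⟩
    have hnt : t ≤ n := (le_max_right _ _).trans hn1
    have hn2 : n₂ ≤ n := (le_max_left _ _).trans hn1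
    have h1 := hlow n hnt
    have hne : (ft hn : Fin (n + 1)) ≠ ft hnt := fun h => htt' (congrArg Fin.val h)
    have h2 : 0 ≤ (τ.val (j n (1 - eC s (ft hnt) - eC s (ft hn)))).re := by
      refine ge_of_tendsto (hre n _) ?_
      filter_upwards [hev n] with i hi
      exact (nn_trans hT hi _ (eC_add_le _ _ hne) _ _).1
    simp only [map_sub, map_one, τ.map_one, Complex.sub_re, Complex.one_re] at h2
    have h3 : (1 / 2 : ℝ) ^ (n + 2) ≤ (1 / 2) ^ n₂ :=
      pow_le_pow_of_le_one (by norm_num) (by norm_num) (by omega)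
    linarith

end Run7.h930.AH
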